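import Pool.Agent.W402.HI.Final

/-!
# MP_5ac32f_an: spectrum locally on a rectifiable curve, growth outside the tangent cones only

Let `T` be a bounded operator on a complex Banach space and let `Γ` be a rectifiable curve (a Lipschitz
image of `[0,1]`, possibly with self-intersections, corners and spirals).  Suppose that in an open set `U`
the spectrum of `T` lies on `Γ` and that at every point `w` of `Γ` in `U` where `Γ` has a tangent `d` the
resolvent grows at most like `exp (C / |z - w| ^ A)` outside every cone about the tangent, with `A` fixed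
and `C` depending on `w`, on `d` and on the cone.  There is no growth condition inside the cones (that is,
near the curve) and none at the points without tangent.  If the spectrum meets `U` and has more than one
point, then `T` has a nontrivial closed hyperinvariant subspace.

The proof (library `Pool.Agent.W402.HI`, theorem `hH2`): almost every line meets `Γ` in finitely many
points, at each of which `Γ` has a tangent transversal to the line; an asymptotically holomorphic functional
calculus with cut-off functions which are very small near these points gives two nonzero operators with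
product zero which commute with the commutant.
-/

set_option autoImplicit false

open Metric

namespace Pool.Agent.Results.MP_5ac32f_an.ConeGrowthCurve

/-- `E` is tangent at `w` to the line `w + ℝ d`: every double cone about this line contains the part of
`E` near `w`. -/
def TangentAt (E : Set ℂ) (w d : ℂ) : Prop :=
  ∀ θ : ℝ, 0 < θ → ∃ r : ℝ, 0 < r ∧ ∀ z ∈ E, ‖z - w‖ < r →
    |((z - w) / d).im| ≤ θ * |((z - w) / d).re|

/-- Growth of order `A` of `N` at `w` outside the cones about the line `w + ℝ d`. -/
def ConeGrowth (N : ℂ → ℝ) (w d : ℂ) (A : ℕ) : Prop :=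
  ∀ θ : ℝ, 0 < θ → ∃ C r : ℝ, 0 < r ∧ ∀ z : ℂ, z ≠ w → ‖z - w‖ < r →
    θ * |((z - w) / d).re| ≤ |((z - w) / d).im| → N z ≤ Real.exp (C / ‖z - w‖ ^ A)

/-- **Operators with spectrum locally on a rectifiable curve and resolvent growth of finite order outside
the cones about the tangents have hyperinvariant subspaces.** -/
theorem result (X : Type) [NormedAddCommGroup X] [NormedSpace ℂ X] [CompleteSpace X]
    (T : X →L[ℂ] X)
    -- the rectifiable curve and the open set
    (γ : ℝ → ℂ) (L : NNReal) (hγ : LipschitzWith L γ) (U : Set ℂ) (hU : IsOpen U)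
    (hσ : spectrum ℂ T ∩ U ⊆ γ '' Set.Icc 0 1)
    -- growth of the resolvent at the tangent points, outside the cones
    (A : ℕ)
    (hA : ∀ w ∈ γ '' Set.Icc 0 1, w ∈ U → ∀ d : ℂ, ‖d‖ = 1 → TangentAt (γ '' Set.Icc 0 1) w d →
      ConeGrowth (fun z => ‖resolvent T z‖) w d A)
    -- the spectrum meets `U` and has at least two points
    (hp : (spectrum ℂ T ∩ U).Nonempty) (hn : (spectrum ℂ T).Nontrivial) :
    ∃ V : Submodule ℂ X, IsClosed (V : Set X) ∧ V ≠ ⊥ ∧ V ≠ ⊤ ∧
      ∀ Q : X →L[ℂ] X, Q * T = T * Q → ∀ x ∈ V, Q x ∈ V := by
  obtain ⟨p, hp1, hp2⟩ := hp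
  exact Pool.Agent.W402.HI.Final.hH2 X T γ L hγ U hU (fun z hz hzU => hσ ⟨hz, hzU⟩)
    ⟨p, hp1, hp2⟩ hn ⟨A, hA⟩

end Pool.Agent.Results.MP_5ac32f_an.ConeGrowthCurve
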