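import Pool.Agent.W402.HI.Final

/-!
# MP_5ac32f_an: compact perturbations of operators with spectrum locally on a rectifiable curve

`S` and `K` are bounded operators on an arbitrary complex Banach space `X` and `Γ` is a rectifiable curve
(a Lipschitz image of `[0,1]`; self-intersections and corners are allowed, and it need not be a Jordan
curve).  Inside an open set `U` the spectrum of `S` lies on `Γ` and the resolvent of `S` grows at most
like `R(δ) ≤ exp (C / δ ^ k)` at distance `δ` from `Γ`; the operator `K` can be approximated up to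
`1 / (2 R(δ))` by operators of rank at most `C / δ ^ k`.  Then `S + K` has a nontrivial closed
hyperinvariant subspace, provided its spectrum meets `U` and is not a single point.

Two special cases.  (a) `K = 0`: operators whose spectrum in `U` lies on a rectifiable curve, with
resolvent growth `exp (C / dist ^ k)`.  (b) The resolvent of `S` grows at most polynomially and the
approximation numbers of `K` decay at least like a negative power of the rank (`polynomial` below), for
example `S` generalized scalar with spectrum on the curve, `K` of finite rank.  For a normal operator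
on a Hilbert space and `U` as here, case (b) is in the starting files (hand-in `RectifiableSpectrum` of
MP_7ec3b1_an); the theorem for Banach spaces and with matched growth is in the library
`Pool.Agent.W402.HI` (project HI) and has not been handed in.
-/

set_option autoImplicit false

open Metric

namespace Pool.Agent.Results.MP_5ac32f_an.CurvePerturbation

/-- **Hyperinvariant subspaces of perturbations of operators on Banach spaces whose spectrum lies locally
on a rectifiable curve.** -/
theorem result (X : Type) [NormedAddCommGroup X] [NormedSpace ℂ X] [CompleteSpace X]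
    (S K : X →L[ℂ] X)
    -- the rectifiable curve and the open set
    (γ : ℝ → ℂ) (L : NNReal) (hγ : LipschitzWith L γ) (U : Set ℂ) (hU : IsOpen U)
    -- growth of the resolvent of `S` matched with the approximability of `K`
    (C : ℝ) (k : ℕ)
    (hM : ∀ δ : ℝ, 0 < δ → δ ≤ 1 → ∃ (G : X →L[ℂ] X) (R : ℝ),
      FiniteDimensional ℂ (LinearMap.range (G : X →ₗ[ℂ] X)) ∧
      (Module.finrank ℂ (LinearMap.range (G : X →ₗ[ℂ] X)) : ℝ) ≤ C / δ ^ k ∧
      1 ≤ R ∧ R ≤ Real.exp (C / δ ^ k) ∧ ‖K - G‖ * R ≤ 1 / 2 ∧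
      ∀ z ∈ U, δ ≤ infDist z (γ '' Set.Icc 0 1) → z ∈ resolventSet ℂ S ∧ ‖resolvent S z‖ ≤ R)
    -- the spectrum of `S + K` meets `U` and has at least two points
    (hp : (spectrum ℂ (S + K) ∩ U).Nonempty) (hn : (spectrum ℂ (S + K)).Nontrivial) :
    ∃ V : Submodule ℂ X, IsClosed (V : Set X) ∧ V ≠ ⊥ ∧ V ≠ ⊤ ∧
      ∀ Q : X →L[ℂ] X, Q * (S + K) = (S + K) * Q → ∀ x ∈ V, Q x ∈ V := by
  obtain ⟨p, hp1, hp2⟩ := hp
  exact Pool.Agent.W402.HI.Asm.perturbGen Pool.Agent.W402.HI.Final.hH2
    Pool.Agent.W402.HI.Final.hE3 Pool.Agent.W324.HI.E4.main X S K γ L hγ U hU C k hM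
    ⟨p, hp1, hp2⟩ hn

/-- The case of polynomial growth and polynomial decay of the approximation numbers. -/
theorem polynomial (X : Type) [NormedAddCommGroup X] [NormedSpace ℂ X] [CompleteSpace X]
    (S K : X →L[ℂ] X) (γ : ℝ → ℂ) (L : NNReal) (hγ : LipschitzWith L γ) (U : Set ℂ) (hU : IsOpen U)
    (hK : ∃ C ε : ℝ, 0 < ε ∧ ∀ m : ℕ, 1 ≤ m → ∃ G : X →L[ℂ] X,
      FiniteDimensional ℂ (LinearMap.range (G : X →ₗ[ℂ] X)) ∧
      Module.finrank ℂ (LinearMap.range (G : X →ₗ[ℂ] X)) ≤ m ∧ ‖K - G‖ ≤ C / (m : ℝ) ^ ε)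
    (hS : ∃ (C : ℝ) (k : ℕ), ∀ z ∈ U, z ∉ γ '' Set.Icc 0 1 → z ∈ resolventSet ℂ S ∧
      ‖resolvent S z‖ ≤ C / infDist z (γ '' Set.Icc 0 1) ^ k)
    (hp : (spectrum ℂ (S + K) ∩ U).Nonempty) (hn : (spectrum ℂ (S + K)).Nontrivial) :
    ∃ V : Submodule ℂ X, IsClosed (V : Set X) ∧ V ≠ ⊥ ∧ V ≠ ⊤ ∧
      ∀ Q : X →L[ℂ] X, Q * (S + K) = (S + K) * Q → ∀ x ∈ V, Q x ∈ V := by
  obtain ⟨p, hp1, hp2⟩ := hp
  exact Pool.Agent.W402.HI.Asm.perturb Pool.Agent.W402.HI.Final.hH2
    Pool.Agent.W402.HI.Final.hE3 Pool.Agent.W324.HI.E4.main Pool.Agent.W991.HI.E5.main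
    Pool.Agent.W991.HI.E5L.main X S K γ L hγ U hU hK hS ⟨p, hp1, hp2⟩ hn

end Pool.Agent.Results.MP_5ac32f_an.CurvePerturbation
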