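import Pool.Agent.TH315.LO.Fin

/-!
# Operators with a leading term over left-ordered groups have hyperinvariant subspaces

Let `G` be a countable group with a left-invariant total order (free groups, surface groups, braid groups,
torsion-free nilpotent groups, Thompson's group `F`, the perfect group `⟨x, y, z | x² = y³ = z⁷ = x y z⟩`, ...).

(1) Let `G` act ergodically on a probability space `(Ω, P)`, and let `ω ↦ T ω` be a bounded measurable field
of operators on `ℓ²(G)` which is covariant: `T (g ω) λ_g = λ_g T ω` for the left translations `λ_g`.  Suppose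
that `T ω δ_1` has no coordinates at `g < m`, and that its coordinate `f ω` at `m`
* is nonzero almost everywhere with `log |f|` integrable, if `m ≠ 1`,
* is not almost everywhere equal to a constant, if `m = 1`.
Then for almost every `ω` the operator `T ω` has a closed subspace, neither `{0}` nor the whole space, which
is invariant under all bounded operators commuting with `T ω`.

For `Ω` a point: every bounded operator on `ℓ²(G)` which commutes with the left translations and for which
the support of `T δ_1` has a least element different from `1` has a nontrivial hyperinvariant subspace.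
The order may be reversed, and one may first subtract a number from `T`.

(2) For a finite `F ⊆ G` and bounded measurable `a g : Ω → ℂ`, `g ∈ F`, such that for each `g ≠ 1` in `F` the
function `a g` is nonzero almost everywhere with `log |a g|` integrable, the operators
`(T ω f)(i) = ∑ g ∈ F, a g (i⁻¹ ω) f(i g)` are almost everywhere equal to one scalar, or almost every `T ω`
has a nontrivial hyperinvariant subspace.

(3) Every element of the complex group ring `ℂ[G]`, acting on `ℓ²(G)`, is a scalar or has a nontrivial
hyperinvariant subspace.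

No homomorphism of `G` to `ℤ` or `ℝ` is used (`G` may be perfect), the coefficients are arbitrary complex
numbers, and `G` is not assumed to be sofic.

Proof.  The covariant fields form a C*-algebra with trace `τ(A) = ∫ ⟨δ_1, A ω δ_1⟩ dP`.  The fields supported
in the positive cone form a subalgebra on which the diagonal coefficient is multiplicative, and Arveson's
factorization of positive invertible fields (through the invariant subspaces generated by the cone) gives
Jensen's inequality `τ log (δ + A* A) ≥ 2 ∫ log |leading coefficient of A|` for all fields with a leading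
term.  The determinant is supermultiplicative, so `τ log (δ + |A^k|²) ≥ 2 k ∫ log |leading coefficient|`.
For suitable `μ` and `A = T - μ` this exceeds `2 k log |τ(A)|`, so the Brown measure of `T` is not a point
mass; the method of Haagerup and Schultz gives a nontrivial hyperinvariant projection field, and ergodicity
makes its values nontrivial for almost every `ω`.

The covariant fields, their trace, the zero-one law and the tracial method are from the starting files
(helpers 116 to 883 for `ErgodicOperators` of MP_f981b0_an, helpers 712, 417, 270 for the Haagerup-Schultz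
library) and from helper322; the rest is due to helper315.
-/

set_option autoImplicit false
open MeasureTheory

namespace Pool.Agent.Results.MP_5ac32f_an.LeftOrderedGroups

/-- the Hilbert space of square summable complex functions on `G` -/
abbrev L2 (G : Type) : Type := lp (fun _ : G => ℂ) 2

/-- the bounded operators on `ℓ²(G)` -/
abbrev Op (G : Type) : Type := L2 G →L[ℂ] L2 G

open Classical in
/-- the unit vector of `ℓ²(G)` at the identity of `G` -/
noncomputable def delta (G : Type) [Group G] : L2 G := lp.single 2 (1 : G) (1 : ℂ)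

/-- `G` acts on the probability space `(Ω, P)` by measure-preserving maps, and every measurable set which is
invariant under all of them has probability zero or one -/
structure ErgodicAction (G : Type) {Ω : Type} [Group G] [MeasurableSpace Ω] [MulAction G Ω]
    (P : Measure Ω) : Prop where
  preserving : ∀ g : G, MeasurePreserving (fun ω : Ω => g • ω) P P
  ergodic : ∀ B : Set Ω, MeasurableSet B → (∀ g : G, (fun ω : Ω => g • ω) ⁻¹' B = B) →
    P B = 0 ∨ P Bᶜ = 0

/-- bounded measurable covariant fields of operators on `ℓ²(G)`: if `f' = λ_g f`, that is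
`f'(i) = f(g⁻¹ i)`, then `(T (g ω) f')(i) = (T ω f)(g⁻¹ i)`, that is `T (g ω) λ_g = λ_g T ω` -/
structure CovariantField {G Ω : Type} [Group G] [MeasurableSpace Ω] [MulAction G Ω] (T : Ω → Op G) :
    Prop where
  bounded : ∃ C : ℝ, ∀ ω, ‖T ω‖ ≤ C
  measurable : ∀ (f : L2 G) (i : G), Measurable fun ω => (T ω f : G → ℂ) i
  covariant : ∀ (g : G) (ω : Ω) (f f' : L2 G), (∀ i, (f' : G → ℂ) i = (f : G → ℂ) (g⁻¹ * i)) →
    ∀ i, (T (g • ω) f' : G → ℂ) i = (T ω f : G → ℂ) (g⁻¹ * i)

/-- `a ω ≠ 0` for almost every `ω`, and `log |a|` is integrable -/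
def LogIntegrable {Ω : Type} [MeasurableSpace Ω] (P : Measure Ω) (a : Ω → ℂ) : Prop :=
  (∀ᵐ ω ∂P, a ω ≠ 0) ∧ Integrable (fun ω => Real.log ‖a ω‖) P

/-- `T ω δ_1` vanishes at all `g < m`; its value `f ω` at `m` satisfies: `f ≠ 0` almost everywhere and
`log |f|` is integrable, if `m ≠ 1`; `f` is not almost everywhere equal to a constant, if `m = 1` -/
structure HasLeadingTerm {G Ω : Type} [Group G] [LinearOrder G] [MeasurableSpace Ω] (P : Measure Ω)
    (T : Ω → Op G) (m : G) : Prop where
  lowest : ∀ ω, ∀ g < m, (T ω (delta G) : G → ℂ) g = 0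
  coefficient : (m ≠ 1 ∧ LogIntegrable P fun ω => (T ω (delta G) : G → ℂ) m) ∨
    (m = 1 ∧ ¬ ∃ c : ℂ, ∀ᵐ ω ∂P, (T ω (delta G) : G → ℂ) m = c)

/-- `T = c` for a number `c` -/
def IsScalar {G : Type} (c : ℂ) (T : Op G) : Prop := ∀ f : L2 G, T f = c • f

/-- `T` has a closed subspace, neither `{0}` nor the whole space, which is invariant under every bounded
operator commuting with `T` -/
def HasHyp {G : Type} (T : Op G) : Prop :=
  ∃ V : Submodule ℂ (L2 G), IsClosed (V : Set (L2 G)) ∧ V ≠ ⊥ ∧ V ≠ ⊤ ∧
    ∀ Q : Op G, (∀ f, Q (T f) = T (Q f)) → ∀ f ∈ V, Q f ∈ V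

/-- the operators `(T ω f)(i) = ∑ g ∈ F, a g (i⁻¹ ω) f(i g)` -/
def IsFamily {G Ω : Type} [Group G] [MulAction G Ω] (F : Finset G) (a : G → Ω → ℂ) (T : Ω → Op G) :
    Prop :=
  ∀ (ω : Ω) (f : L2 G) (i : G), (T ω f : G → ℂ) i
    = ∑ g ∈ F, a g (i⁻¹ • ω) * (f : G → ℂ) (i * g)

/-- the operator `(T f)(i) = ∑ g ∈ F, a g f(i g)`, given by the element `∑ g ∈ F, a g • g` of `ℂ[G]` -/
def IsGroupRingOperator {G : Type} [Group G] (F : Finset G) (a : G → ℂ) (T : Op G) : Prop :=
  ∀ (f : L2 G) (i : G), (T f : G → ℂ) i = ∑ g ∈ F, a g * (f : G → ℂ) (i * g)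

theorem delta_eq (G : Type) [Group G] : delta G = Pool.Agent.W611.RO.stb G 1 := by
  classical
  refine lp.ext (funext fun i => ?_)
  rw [Pool.Agent.W611.RO.stb_apply]
  unfold delta
  rw [lp.single_apply, Pi.single_apply]

theorem hyp_of {G : Type} {T : Op G} (h : Pool.Agent.W611.RO.HasHyp T) : HasHyp T := by
  obtain ⟨V, h1, h2, h3, h4⟩ := h
  exact ⟨V, h1, h2, h3, fun Q hQ => h4 Q (ContinuousLinearMap.ext hQ)⟩

theorem result :
    -- (1) covariant fields with a leading term
    (∀ (G Ω : Type) [Group G] [Countable G] [LinearOrder G] [MulLeftStrictMono G]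
      [MeasurableSpace Ω] [MulAction G Ω] (P : Measure Ω) [IsProbabilityMeasure P],
      ErgodicAction G P → ∀ T : Ω → Op G, CovariantField T → ∀ m : G, HasLeadingTerm P T m →
        ∀ᵐ ω ∂P, HasHyp (T ω)) ∧
    -- (2) finite sums with random coefficients
    (∀ (G Ω : Type) [Group G] [Countable G] [LinearOrder G] [MulLeftStrictMono G]
      [MeasurableSpace Ω] [MulAction G Ω] (P : Measure Ω) [IsProbabilityMeasure P],
      ErgodicAction G P → ∀ (F : Finset G) (a : G → Ω → ℂ) (B : ℝ),
        (∀ g ∈ F, Measurable (a g)) → (∀ g ∈ F, ∀ ω, ‖a g ω‖ ≤ B) →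
        (∀ g ∈ F, g ≠ 1 → LogIntegrable P (a g)) →
        (∃ T : Ω → Op G, IsFamily F a T) ∧ ∀ T : Ω → Op G, IsFamily F a T →
          (∃ c : ℂ, ∀ᵐ ω ∂P, IsScalar c (T ω)) ∨ ∀ᵐ ω ∂P, HasHyp (T ω)) ∧
    -- (3) the complex group ring
    (∀ (G : Type) [Group G] [Countable G] [LinearOrder G] [MulLeftStrictMono G]
      (F : Finset G) (a : G → ℂ) (T : Op G), IsGroupRingOperator F a T →
        (∃ c : ℂ, IsScalar c T) ∨ HasHyp T) := by
  refine ⟨?_, ?_, ?_⟩
  · intro G Ω _ _ _ _ _ _ P _ hP T hT m hm
    obtain ⟨C, hC⟩ := hT.bounded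
    have hlow := hm.lowest
    have hco := hm.coefficient
    rw [delta_eq] at hlow hco
    have h := Pool.Agent.TH315.LO.t_COV P ⟨hP.preserving, hP.ergodic⟩ T C hC hT.measurable
      hT.covariant m hlow hco
    filter_upwards [h] with ω hω
    exact hyp_of hω
  · intro G Ω _ _ _ _ _ _ P _ hP F a B ham haB hne
    refine ⟨Pool.Agent.TH315.LO.exists_fin F a B haB, fun T hT => ?_⟩
    rcases Pool.Agent.TH315.LO.t_FIN P ⟨hP.preserving, hP.ergodic⟩ F a ham B haB
      (fun g hg h1 => (hne g hg h1).1) (fun g hg h1 => (hne g hg h1).2) T hT with ⟨c, hc⟩ | h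
    · left
      refine ⟨c, ?_⟩
      filter_upwards [hc] with ω hω f
      rw [hω]
      rfl
    · right
      filter_upwards [h] with ω hω
      exact hyp_of hω
  · intro G _ _ _ _ F a T hT
    rcases Pool.Agent.TH315.LO.t_RING G F a T hT with ⟨c, hc⟩ | h
    · left
      refine ⟨c, fun f => ?_⟩
      rw [hc]
      rfl
    · exact Or.inr (hyp_of h)

end Pool.Agent.Results.MP_5ac32f_an.LeftOrderedGroups
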