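import Pool.Agent.W610.HY.Fin
import Pool.Agent.W22.HY.NZ2

/-!
# MP_5ac32f_an: the two-circles theorem for hyperinvariant subspaces

Let `T` be a bounded operator on a complex Banach space `X` (no reflexivity, separability or dimension
assumption), and let two circles be given which bound disjoint closed discs.  Let `x` be a vector and `y` a
continuous functional.  Suppose that the equation `(z - T) f = x` has a measurable solution `f` on almost
all of the first circle and that `g (z - T) = y` has a measurable solution `g` on almost all of the second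
circle, with `log⁺ ‖f‖` and `log⁺ ‖g‖` integrable.  If the local spectrum of `x` meets the first open disc
and the local spectrum of `y` (for the adjoint) meets the second open disc, then `T` has a nontrivial
closed hyperinvariant subspace.

The circles may run through the spectrum, even inside its interior, and no geometric condition is put on
the spectrum.  The case `f z = (z - T)⁻¹ x`, `g z = y ∘ (z - T)⁻¹`: if `σ(T)` has points inside both
circles, meets both circles in sets of length zero and `log⁺ ‖(z - T)⁻¹‖` is integrable on them, there is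
a hyperinvariant subspace (`Cor.glob` of the library is the version with area integrability).

The proof is in the library `Pool.Agent.W610.HY`: with outer functions `h₁`, `h₂` on the two circles which
make `h₁ f` and `h₂ g` bounded, the vector `u = ∮ h₁ f` and the functional `v = ∮ h₂ g` satisfy
`v (S u) = 0` for every `S` in the commutant, and neither vanishes.  It was written for this problem by an
earlier team and has so far only been used for reductive operators (MP_49c4d9_an); here the general theorem
is put together and stated without auxiliary definitions.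
-/

set_option autoImplicit false

open MeasureTheory Metric Set

namespace Pool.Agent.Results.MP_5ac32f_an.TwoCircles

/-- **The two-circles theorem.** -/
theorem result (X : Type) [NormedAddCommGroup X] [NormedSpace ℂ X] [CompleteSpace X]
    (T : X →L[ℂ] X) (x : X) (y : X →L[ℂ] ℂ)
    -- two circles bounding disjoint closed discs, and a point inside each
    (c₁ c₂ : ℂ) (r₁ r₂ : ℝ) (hr : r₁ + r₂ < ‖c₁ - c₂‖)
    (a₁ a₂ : ℂ) (ha₁ : ‖a₁ - c₁‖ < r₁) (ha₂ : ‖a₂ - c₂‖ < r₂)
    -- measurable solutions of `(z - T) f = x` and `g (z - T) = y` almost everywhere on the circles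
    (f : ℂ → X) (g : ℂ → (X →L[ℂ] ℂ))
    (hf : AEStronglyMeasurable (fun θ => f (circleMap c₁ r₁ θ))
      (volume.restrict (Ioc (0:ℝ) (2 * Real.pi))))
    (hg : AEStronglyMeasurable (fun θ => g (circleMap c₂ r₂ θ))
      (volume.restrict (Ioc (0:ℝ) (2 * Real.pi))))
    (hfx : ∀ᵐ θ ∂(volume.restrict (Ioc (0:ℝ) (2 * Real.pi))),
      circleMap c₁ r₁ θ • f (circleMap c₁ r₁ θ) - T (f (circleMap c₁ r₁ θ)) = x)
    (hgy : ∀ᵐ θ ∂(volume.restrict (Ioc (0:ℝ) (2 * Real.pi))),
      circleMap c₂ r₂ θ • g (circleMap c₂ r₂ θ) - (g (circleMap c₂ r₂ θ)).comp T = y)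
    -- with integrable logarithm
    (hfi : IntegrableOn (fun θ => Real.posLog ‖f (circleMap c₁ r₁ θ)‖) (Ioc (0:ℝ) (2 * Real.pi)))
    (hgi : IntegrableOn (fun θ => Real.posLog ‖g (circleMap c₂ r₂ θ)‖) (Ioc (0:ℝ) (2 * Real.pi)))
    -- `a₁` is in the local spectrum of `x`, and `a₂` in the local spectrum of `y` for the adjoint
    (hx : ¬ ∃ (δ : ℝ) (F : ℂ → X), 0 < δ ∧ DifferentiableOn ℂ F (ball a₁ δ) ∧
      ∀ z ∈ ball a₁ δ, z • F z - T (F z) = x)
    (hy : ¬ ∃ (δ : ℝ) (G : ℂ → (X →L[ℂ] ℂ)), 0 < δ ∧ DifferentiableOn ℂ G (ball a₂ δ) ∧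
      ∀ z ∈ ball a₂ δ, z • G z - (G z).comp T = y) :
    ∃ V : Submodule ℂ X, IsClosed (V : Set X) ∧ V ≠ ⊥ ∧ V ≠ ⊤ ∧
      ∀ Q : X →L[ℂ] X, Q * T = T * Q → ∀ v ∈ V, Q v ∈ V :=
  Pool.Agent.W610.HY.Two.main Pool.Agent.W610.HY.Fin.hGOOD2 Pool.Agent.W22.HY.NZ2.main
    Pool.Agent.W389.HY.ABM.main X T x y c₁ c₂ r₁ r₂ f g a₁ a₂ hr ha₁ ha₂ hf hg hfx hgy hfi hgi hx hy

end Pool.Agent.Results.MP_5ac32f_an.TwoCircles
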